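import Pool.Agent.Helper46.DC.Defs

set_option autoImplicit false

namespace Pool.Agent.DC

open Finset

theorem criterion {V : Type} [Fintype V] [DecidableEq V] (G : SimpleGraph V) [DecidableRel G.Adj]
    (X R : Finset V) (hXR : Disjoint X R) (hRX : R.card = X.card) (hX : X.Nonempty)
    (hbig : ∃ v, v ∉ X ∧ v ∉ R)
    (hconn : ∀ Z : Finset V, Disjoint Z X → Z.card < X.card →
      (G.induce {v | v ∉ X ∧ v ∉ Z}).Connected)
    (hS : ∀ D : Finset V, Disjoint D X → Disjoint D R →
      (X.filter fun x => ((univ.filter fun y => G.Adj x y ∧ y ∉ X) \ D).card ≤ X.card).card ≤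
        D.card) : DisjCycles G X := by
  sorry

theorem conn_congr {V : Type} (G : SimpleGraph V) {s t : Set V} (h : s = t)
    (hs : (G.induce s).Connected) : (G.induce t).Connected := by
  subst h; exact hs

theorem core_case {V : Type} [Fintype V] [DecidableEq V] (G : SimpleGraph V) [DecidableRel G.Adj]
    (k : ℕ) (hk : 1 ≤ k) (hG : KConn G (2 * k)) (X R : Finset V) (hXk : X.card = k)
    (hXR : Disjoint X R) (hRk : R.card = k)
    (hN : ∀ x ∈ X, 2 * k - 1 ≤ (univ.filter fun y => G.Adj x y ∧ y ∉ X).card)
    (hM : ∀ D : Finset V, D.card = k - 1 → Disjoint D R →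
      ∃ x ∈ X, k < ((univ.filter fun y => G.Adj x y ∧ y ∉ X) \ D).card) :
    DisjCycles G X := by
  have hV : 2 * k < Fintype.card V := hG.1
  apply criterion G X R hXR (by rw [hRk, hXk]) (Finset.card_pos.1 (by omega))
  · by_contra hcon
    push Not at hcon
    have h1 : (univ : Finset V) ⊆ X ∪ R := by
      intro v _
      rw [Finset.mem_union]
      by_cases hv : v ∈ X
      · exact Or.inl hv
      · exact Or.inr (hcon v hv)
    have h2 := Finset.card_le_card h1
    have h3 := Finset.card_union_le X R
    rw [Finset.card_univ] at h2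
    omega
  · intro Z hZX hZ
    have h1 : (X ∪ Z).card < 2 * k := by
      have := Finset.card_union_le X Z
      omega
    refine conn_congr G ?_ (hG.2 (X ∪ Z) h1)
    ext v
    simp [Finset.mem_union]
  · intro D hDX hDR
    rw [hXk]
    by_cases hD : k ≤ D.card
    · refine le_trans (Finset.card_filter_le _ _) ?_
      omega
    push Not at hD
    by_cases hD2 : D.card = k - 1
    · obtain ⟨x, hx, hx2⟩ := hM D hD2 hDR
      have h1 : (X.filter fun x => ((univ.filter fun y => G.Adj x y ∧ y ∉ X) \ D).card ≤ k) ⊆
          X.erase x := by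
        intro y hy
        rw [Finset.mem_filter] at hy
        rw [Finset.mem_erase]
        refine ⟨?_, hy.1⟩
        rintro rfl
        omega
      have h2 := Finset.card_le_card h1
      rw [Finset.card_erase_of_mem hx] at h2
      omega
    · have h1 : (X.filter fun x => ((univ.filter fun y => G.Adj x y ∧ y ∉ X) \ D).card ≤ k) = ∅ := by
        rw [Finset.filter_eq_empty_iff]
        intro x hx
        have h3 := hN x hx
        have h4 := Finset.le_card_sdiff D (univ.filter fun y => G.Adj x y ∧ y ∉ X)
        omega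
      rw [h1]
      simp

/-- every `x ∈ X` has at least `2k` neighbours outside `X` -/
theorem rich_case {V : Type} [Fintype V] [DecidableEq V] (G : SimpleGraph V) [DecidableRel G.Adj]
    (k : ℕ) (hk : 1 ≤ k) (hG : KConn G (2 * k)) (X : Finset V) (hXk : X.card = k)
    (hN : ∀ x ∈ X, 2 * k ≤ (univ.filter fun y => G.Adj x y ∧ y ∉ X).card) :
    DisjCycles G X := by
  have hV : 2 * k < Fintype.card V := hG.1
  have h1 : k ≤ (Xᶜ).card := by
    rw [Finset.card_compl]; omega
  obtain ⟨R, hR1, hR2⟩ := Finset.exists_subset_card_eq h1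
  refine core_case G k hk hG X R hXk ?_ hR2 ?_ ?_
  · rw [Finset.disjoint_right]
    intro v hv
    have := hR1 hv
    rwa [Finset.mem_compl] at this
  · intro x hx
    have := hN x hx
    omega
  · intro D hD _
    have h0 : X.Nonempty := Finset.card_pos.1 (by omega)
    obtain ⟨x, hx⟩ := h0
    refine ⟨x, hx, ?_⟩
    have h3 := hN x hx
    have h4 := Finset.le_card_sdiff D (univ.filter fun y => G.Adj x y ∧ y ∉ X)
    omega

theorem kconn_mono {V : Type} [Fintype V] {G : SimpleGraph V} {c d : ℕ} (h : d ≤ c)
    (hG : KConn G c) : KConn G d :=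
  ⟨by have := hG.1; omega, fun S hS => hG.2 S (by omega)⟩

/-- separation: if `A` is nonempty, `B` nonempty, all neighbours of `A` outside `A` are in `S`. -/
theorem sep_card {V : Type} [Fintype V] [DecidableEq V] {G : SimpleGraph V} {c : ℕ}
    (hG : KConn G c) (A S : Finset V) (x y : V) (hx : x ∈ A) (hxS : x ∉ S) (hy : y ∉ A)
    (hyS : y ∉ S) (h : ∀ u ∈ A, ∀ v, G.Adj u v → v ∈ A ∨ v ∈ S) : c ≤ S.card := by
  by_contra hcon
  push Not at hcon
  have h1 := hG.2 S hcon
  have h2 := h1.preconnected ⟨x, by simpa using hxS⟩ ⟨y, by simpa using hyS⟩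
  obtain ⟨w⟩ := h2
  have key : ∀ (a b : {v | v ∉ S}) (w : (G.induce {v | v ∉ S}).Walk a b), a.1 ∈ A → b.1 ∈ A := by
    intro a b w
    induction w with
    | nil => exact id
    | @cons a v b hadj p ih =>
      intro ha
      apply ih
      have h3 : G.Adj a.1 v.1 := hadj
      rcases h _ ha _ h3 with h4 | h4
      · exact h4
      · exact absurd h4 v.2
  exact hy (key _ _ w hx)

theorem general_case {V : Type} [Fintype V] [DecidableEq V] (G : SimpleGraph V)
    (k : ℕ) (hk : 2 ≤ k) (hV : 3 * k ≤ Fintype.card V) (hG : KConn G (3 * k - 2))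
    (X : Finset V) (hXk : X.card = k) : DisjCycles G X := by
  classical
  have hG2 : KConn G (2 * k) := kconn_mono (by omega) hG
  have hXne : X.Nonempty := Finset.card_pos.1 (by omega)
  -- degrees
  have hdeg : ∀ x ∈ X, 2 * k - 1 ≤ (univ.filter fun y => G.Adj x y ∧ y ∉ X).card := by
    intro x hx
    by_contra hcon
    push Not at hcon
    set S : Finset V := (univ.filter fun y => G.Adj x y) with hSdef
    have h1 : S ⊆ (univ.filter fun y => G.Adj x y ∧ y ∉ X) ∪ X.erase x := by
      intro y hy
      rw [hSdef, Finset.mem_filter] at hy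
      rw [Finset.mem_union, Finset.mem_filter, Finset.mem_erase]
      by_cases hyX : y ∈ X
      · exact Or.inr ⟨hy.2.ne', hyX⟩
      · exact Or.inl ⟨Finset.mem_univ _, hy.2, hyX⟩
    have h2 := Finset.card_le_card h1
    have h3 := Finset.card_union_le (univ.filter fun y => G.Adj x y ∧ y ∉ X) (X.erase x)
    rw [Finset.card_erase_of_mem hx] at h3
    have hScard : S.card < 3 * k - 2 := by omega
    -- a vertex outside S ∪ {x}
    have h4 : ∃ y, y ∉ insert x S := by
      by_contra hc
      push Not at hc
      have h5 : (univ : Finset V) ⊆ insert x S := fun v _ => hc v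
      have h6 := Finset.card_le_card h5
      have h7 := Finset.card_insert_le x S
      rw [Finset.card_univ] at h6
      omega
    obtain ⟨y, hy⟩ := h4
    rw [Finset.mem_insert, not_or] at hy
    have h8 := sep_card hG {x} S x y (Finset.mem_singleton_self x)
      (by rw [hSdef, Finset.mem_filter]; exact fun h => G.loopless.irrefl _ h.2)
      (by rw [Finset.mem_singleton]; exact hy.1) hy.2
      (by
        intro u hu v huv
        rw [Finset.mem_singleton] at hu
        subst hu
        right
        rw [hSdef, Finset.mem_filter]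
        exact ⟨Finset.mem_univ _, huv⟩)
    omega
  by_cases hrich : ∃ x ∈ X, 2 * k ≤ (univ.filter fun y => G.Adj x y ∧ y ∉ X).card
  · obtain ⟨x, hx, hx2⟩ := hrich
    have h1 : k ≤ (Xᶜ).card := by
      rw [Finset.card_compl]; omega
    obtain ⟨R, hR1, hR2⟩ := Finset.exists_subset_card_eq h1
    refine core_case G k (by omega) hG2 X R hXk ?_ hR2 hdeg ?_
    · rw [Finset.disjoint_right]
      intro v hv
      have := hR1 hv
      rwa [Finset.mem_compl] at this
    · intro D hD _
      refine ⟨x, hx, ?_⟩
      have h4 := Finset.le_card_sdiff D (univ.filter fun y => G.Adj x y ∧ y ∉ X)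
      omega
  push Not at hrich
  have heq : ∀ x ∈ X, (univ.filter fun y => G.Adj x y ∧ y ∉ X).card = 2 * k - 1 := by
    intro x hx
    have := hdeg x hx
    have := hrich x hx
    omega
  set M : Finset V := univ.filter fun y => y ∉ X ∧ ∀ x ∈ X, G.Adj x y with hMdef
  have hMsub : ∀ x ∈ X, M ⊆ (univ.filter fun y => G.Adj x y ∧ y ∉ X) := by
    intro x hx y hy
    rw [hMdef, Finset.mem_filter] at hy
    rw [Finset.mem_filter]
    exact ⟨Finset.mem_univ _, hy.2.2 x hx, hy.2.1⟩
  have hMcard : M.card ≤ 2 * k - 2 := by
    by_contra hcon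
    push Not at hcon
    have h1 : ∀ x ∈ X, M = (univ.filter fun y => G.Adj x y ∧ y ∉ X) := by
      intro x hx
      exact Finset.eq_of_subset_of_card_le (hMsub x hx) (by rw [heq x hx]; omega)
    obtain ⟨x, hx⟩ := hXne
    have hMc : M.card = 2 * k - 1 := by rw [h1 x hx, heq x hx]
    have h4 : ∃ y, y ∉ X ∪ M := by
      by_contra hc
      push Not at hc
      have h5 : (univ : Finset V) ⊆ X ∪ M := fun v _ => hc v
      have h6 := Finset.card_le_card h5
      have h7 := Finset.card_union_le X M
      rw [Finset.card_univ] at h6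
      omega
    obtain ⟨y, hy⟩ := h4
    rw [Finset.mem_union, not_or] at hy
    have h8 := sep_card hG X M x y hx
      (by rw [hMdef, Finset.mem_filter]; exact fun h => h.2.1 hx) hy.1 hy.2
      (by
        intro u hu v huv
        by_cases hv : v ∈ X
        · exact Or.inl hv
        · right
          rw [h1 u hu, Finset.mem_filter]
          exact ⟨Finset.mem_univ _, huv, hv⟩)
    omega
  -- choose R
  obtain ⟨M', hM'1, hM'2⟩ := Finset.exists_subset_card_eq (s := M) (n := min k M.card)
    (min_le_right _ _)
  have hMX : M ⊆ Xᶜ := by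
    intro y hy
    rw [hMdef, Finset.mem_filter] at hy
    rw [Finset.mem_compl]
    exact hy.2.1
  have h1 : k ≤ (Xᶜ).card := by
    rw [Finset.card_compl]; omega
  obtain ⟨R, hR1, hR2, hR3⟩ := Finset.exists_subsuperset_card_eq (hM'1.trans hMX)
    (by rw [hM'2]; exact min_le_left _ _) h1
  refine core_case G k (by omega) hG2 X R hXk ?_ hR3 hdeg ?_
  · rw [Finset.disjoint_right]
    intro v hv
    have := hR2 hv
    rwa [Finset.mem_compl] at this
  · intro D hD hDR
    by_contra hcon
    push Not at hcon
    have h2 : D ⊆ M \ R := by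
      have h3 : ∀ x ∈ X, D ⊆ (univ.filter fun y => G.Adj x y ∧ y ∉ X) := by
        intro x hx
        have h4 := hcon x hx
        have h5 := Finset.card_sdiff_add_card_inter (univ.filter fun y => G.Adj x y ∧ y ∉ X) D
        rw [heq x hx] at h5
        have h6 : D.card ≤ ((univ.filter fun y => G.Adj x y ∧ y ∉ X) ∩ D).card := by omega
        have h7 := Finset.eq_of_subset_of_card_le
          (Finset.inter_subset_right (s₁ := (univ.filter fun y => G.Adj x y ∧ y ∉ X)) (s₂ := D)) h6
        intro y hy
        rw [← h7] at hy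
        exact (Finset.mem_inter.1 hy).1
      intro y hy
      rw [Finset.mem_sdiff]
      refine ⟨?_, Finset.disjoint_left.1 hDR hy⟩
      rw [hMdef, Finset.mem_filter]
      obtain ⟨x, hx⟩ := hXne
      refine ⟨Finset.mem_univ _, ?_, ?_⟩
      · have := h3 x hx hy
        rw [Finset.mem_filter] at this
        exact this.2.2
      · intro x' hx'
        have := h3 x' hx' hy
        rw [Finset.mem_filter] at this
        exact this.2.1
    have h3 := Finset.card_le_card h2
    have h4 : (M \ R).card ≤ (M \ M').card := Finset.card_le_card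
      (Finset.sdiff_subset_sdiff (Finset.Subset.refl _) hR1)
    rw [Finset.card_sdiff_of_subset hM'1, hM'2] at h4
    rcases le_total k M.card with h5 | h5
    · rw [min_eq_left h5] at h4
      omega
    · rw [min_eq_right h5] at h4
      omega

end Pool.Agent.DC
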